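import Pool.Agent.H29.RT.Targets
import Pool.Agent.H29.EX.Targets

/-!
# (LDM) two characters and a shift: the difference of two values of the prime zeta function
-/

set_option autoImplicit false

open Complex MeasureTheory Set Filter Topology

namespace Pool.Agent.H96.RT

open Pool.Agent.H29.RT Pool.Agent.H25.DP Pool.Agent.H25.DL Pool.Agent.H25.MZ

/-- the integral of one term -/
lemma int_term (p L s : ℝ) (hp : 1 < p) :
    ∫ v in (1 : ℝ)..s, Real.log p / L * p ^ (-(1 + v / L) : ℝ) =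
      -(p ^ (-(1 + s / L) : ℝ) - p ^ (-(1 + 1 / L) : ℝ)) := by
  have hp0 : 0 < p := by linarith
  have hd : ∀ v : ℝ, HasDerivAt (fun v : ℝ => -(p ^ (-(1 + v / L) : ℝ)))
      (Real.log p / L * p ^ (-(1 + v / L) : ℝ)) v := by
    intro v
    have h1 : HasDerivAt (fun v : ℝ => -(1 + v / L)) (-(1 / L)) v := by
      have := ((hasDerivAt_id v).div_const L).const_add 1
      exact this.neg
    have h2 := h1.const_rpow hp0
    have h3 : HasDerivAt (fun v : ℝ => -(p ^ (-(1 + v / L) : ℝ)))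
        (-(Real.log p * -(1 / L) * p ^ (-(1 + v / L) : ℝ))) v := h2.neg
    have h4 : -(Real.log p * -(1 / L) * p ^ (-(1 + v / L) : ℝ)) =
        Real.log p / L * p ^ (-(1 + v / L) : ℝ) := by ring
    rwa [h4] at h3
  have hc : Continuous fun v : ℝ => Real.log p / L * p ^ (-(1 + v / L) : ℝ) := by
    apply Continuous.mul continuous_const
    exact Continuous.rpow continuous_const (by fun_prop) (fun _ => Or.inl hp0.ne')
  rw [intervalIntegral.integral_eq_sub_of_hasDerivAt (fun v _ => hd v)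
    (hc.intervalIntegrable _ _)]
  ring

/-- summability of `log p / p^{1+σ}` over the primes -/
lemma summ_log (σ : ℝ) (hσ : 0 < σ) :
    Summable fun p : Nat.Primes => Real.log p * ((p : ℕ) : ℝ) ^ (-(1 + σ) : ℝ) := by
  have h1 : Summable fun n : ℕ => (2 / σ) * (n : ℝ) ^ (-(1 + σ / 2) : ℝ) :=
    (Real.summable_nat_rpow.2 (by linarith)).mul_left _
  have h2 : Summable fun p : Nat.Primes => (2 / σ) * ((p : ℕ) : ℝ) ^ (-(1 + σ / 2) : ℝ) :=
    h1.comp_injective (i := fun p : Nat.Primes => (p : ℕ)) Nat.Primes.coe_nat_injective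
  refine Summable.of_nonneg_of_le (fun p => ?_) (fun p => ?_) h2
  · exact mul_nonneg (Real.log_natCast_nonneg _) (Real.rpow_nonneg (Nat.cast_nonneg _) _)
  · have hp : (1 : ℝ) < ((p : ℕ) : ℝ) := by exact_mod_cast p.2.one_lt
    have hp0 : (0 : ℝ) < ((p : ℕ) : ℝ) := by linarith
    have h3 : Real.log ((p : ℕ) : ℝ) ≤ ((p : ℕ) : ℝ) ^ (σ / 2) / (σ / 2) :=
      Real.log_le_rpow_div hp0.le (by linarith)
    calc Real.log ((p : ℕ) : ℝ) * ((p : ℕ) : ℝ) ^ (-(1 + σ) : ℝ)
        ≤ ((p : ℕ) : ℝ) ^ (σ / 2) / (σ / 2) * ((p : ℕ) : ℝ) ^ (-(1 + σ) : ℝ) :=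
          mul_le_mul_of_nonneg_right h3 (Real.rpow_nonneg hp0.le _)
      _ = (2 / σ) * (((p : ℕ) : ℝ) ^ (σ / 2) * ((p : ℕ) : ℝ) ^ (-(1 + σ) : ℝ)) := by
          field_simp
      _ = (2 / σ) * ((p : ℕ) : ℝ) ^ (-(1 + σ / 2) : ℝ) := by
          rw [← Real.rpow_add hp0]
          ring_nf

/-- the exchange of sum and integral -/
lemma swap (a : Nat.Primes → ℂ) (ha : ∀ p, ‖a p‖ ≤ 1) (L : ℝ) (hL : 0 < L) (s : ℝ) (hs : 1 ≤ s) :
    (∑' p : Nat.Primes, a p *
      ((((p : ℕ) : ℝ) ^ (-(1 + s / L) : ℝ) - ((p : ℕ) : ℝ) ^ (-(1 + 1 / L) : ℝ) : ℝ) : ℂ)) =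
    -∫ v in (1 : ℝ)..s, (∑' p : Nat.Primes, a p * Real.log p *
      ((((p : ℕ) : ℝ) ^ (-(1 + v / L) : ℝ) : ℝ) : ℂ)) / L := by
  let f : Nat.Primes → C(ℝ, ℂ) := fun p =>
    ⟨fun v => a p * ((Real.log p / L * ((p : ℕ) : ℝ) ^ (-(1 + v / L) : ℝ) : ℝ) : ℂ), by
      have hp0 : (0 : ℝ) < ((p : ℕ) : ℝ) := by exact_mod_cast p.2.pos
      apply Continuous.mul continuous_const
      apply Complex.continuous_ofReal.comp
      apply Continuous.mul continuous_const
      exact Continuous.rpow continuous_const (by fun_prop) (fun _ => Or.inl hp0.ne')⟩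
  have hsum : Summable fun p : Nat.Primes =>
      ‖(f p).restrict (⟨uIcc 1 s, isCompact_uIcc⟩ : TopologicalSpace.Compacts ℝ)‖ := by
    have h1 := (summ_log (1 / L) (by positivity)).mul_left (1 / L)
    refine Summable.of_nonneg_of_le (fun p => norm_nonneg _) (fun p => ?_) h1
    have hp : (1 : ℝ) < ((p : ℕ) : ℝ) := by exact_mod_cast p.2.one_lt
    have hp0 : (0 : ℝ) < ((p : ℕ) : ℝ) := by linarith
    have hl : 0 ≤ Real.log ((p : ℕ) : ℝ) := Real.log_nonneg hp.le
    rw [ContinuousMap.norm_le _ (by positivity)]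
    rintro ⟨v, hv⟩
    have hv' : v ∈ uIcc 1 s := hv
    rw [uIcc_of_le hs] at hv'
    simp only [ContinuousMap.restrict_apply, f, ContinuousMap.coe_mk]
    rw [norm_mul, Complex.norm_real, Real.norm_of_nonneg (by positivity)]
    calc ‖a p‖ * (Real.log ((p : ℕ) : ℝ) / L * ((p : ℕ) : ℝ) ^ (-(1 + v / L) : ℝ))
        ≤ 1 * (Real.log ((p : ℕ) : ℝ) / L * ((p : ℕ) : ℝ) ^ (-(1 + 1 / L) : ℝ)) := by
          apply mul_le_mul (ha p) _ (by positivity) (by norm_num)
          apply mul_le_mul_of_nonneg_left _ (by positivity)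
          apply Real.rpow_le_rpow_of_exponent_le hp.le
          have : 1 / L ≤ v / L := div_le_div_of_nonneg_right hv'.1 hL.le
          linarith
      _ = 1 / L * (Real.log ((p : ℕ) : ℝ) * ((p : ℕ) : ℝ) ^ (-(1 + 1 / L) : ℝ)) := by ring
  have h2 := intervalIntegral.tsum_intervalIntegral_eq_of_summable_norm hsum
  have h3 : ∀ p : Nat.Primes, (∫ v in (1 : ℝ)..s, f p v) =
      -(a p * ((((p : ℕ) : ℝ) ^ (-(1 + s / L) : ℝ) -
        ((p : ℕ) : ℝ) ^ (-(1 + 1 / L) : ℝ) : ℝ) : ℂ)) := by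
    intro p
    have hp : (1 : ℝ) < ((p : ℕ) : ℝ) := by exact_mod_cast p.2.one_lt
    simp only [f, ContinuousMap.coe_mk]
    rw [intervalIntegral.integral_const_mul, intervalIntegral.integral_ofReal,
      int_term _ _ _ hp]
    push_cast
    ring
  have h4 : ∀ v : ℝ, (∑' p : Nat.Primes, f p v) = (∑' p : Nat.Primes, a p * Real.log p *
      ((((p : ℕ) : ℝ) ^ (-(1 + v / L) : ℝ) : ℝ) : ℂ)) / L := by
    intro v
    rw [← tsum_div_const]
    apply tsum_congr
    intro p
    simp only [f, ContinuousMap.coe_mk]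
    push_cast
    ring
  simp only [h3, h4, tsum_neg] at h2
  rw [← h2, neg_neg]

/-- the limit of the integral -/
lemma lim_int (g : ℝ → ℂ) (a : ℂ) (hg : Tendsto g atTop (𝓝 a)) (s : ℝ) (hs : 1 ≤ s)
    (hm : ∀ L : ℝ, 0 < L → ContinuousOn (fun v => g (L / v)) (Icc 1 s)) :
    Tendsto (fun L : ℝ => ∫ v in (1 : ℝ)..s, g (L / v) / v) atTop (𝓝 (a * Real.log s)) := by
  have h0 : (a * Real.log s : ℂ) = ∫ v in (1 : ℝ)..s, a / v := by
    have : (∫ v in (1 : ℝ)..s, a / (v : ℂ)) = ∫ v in (1 : ℝ)..s, a * ((v⁻¹ : ℝ) : ℂ) := by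
      apply intervalIntegral.integral_congr
      intro v _
      simp [div_eq_mul_inv]
    rw [this, intervalIntegral.integral_const_mul, intervalIntegral.integral_ofReal,
      integral_inv_of_pos (by norm_num) (by linarith)]
    simp
  rw [h0]
  have hb : ∀ᶠ L in atTop, ‖g L‖ ≤ ‖a‖ + 1 := by
    have := hg.norm.eventually (Iic_mem_nhds (show ‖a‖ < ‖a‖ + 1 by linarith))
    exact this
  obtain ⟨L₀, hL₀⟩ := eventually_atTop.1 hb
  apply intervalIntegral.tendsto_integral_filter_of_dominated_convergence (fun _ => ‖a‖ + 1)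
  · filter_upwards [eventually_gt_atTop 0] with L hL
    rw [uIoc_of_le hs]
    apply ContinuousOn.aestronglyMeasurable _ measurableSet_Ioc
    apply ContinuousOn.div ((hm L hL).mono Ioc_subset_Icc_self)
    · exact Complex.continuous_ofReal.continuousOn
    · intro v hv
      have : 0 < v := by linarith [hv.1]
      exact_mod_cast this.ne'
  · filter_upwards [eventually_ge_atTop (max 1 (L₀ * s)), eventually_ge_atTop (max 0 L₀ * s)]
      with L hL hL'
    refine Eventually.of_forall fun v hv => ?_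
    rw [uIoc_of_le hs] at hv
    have hv1 : 1 ≤ v := hv.1.le
    have hv0 : 0 < v := by linarith
    have h1 : L₀ ≤ L / v := by
      rw [le_div_iff₀ hv0]
      calc L₀ * v ≤ max 0 L₀ * v := mul_le_mul_of_nonneg_right (le_max_right _ _) hv0.le
        _ ≤ max 0 L₀ * s := mul_le_mul_of_nonneg_left hv.2 (le_max_left _ _)
        _ ≤ L := hL'
    rw [norm_div, Complex.norm_real, Real.norm_of_nonneg hv0.le, div_le_iff₀ hv0]
    calc ‖g (L / v)‖ ≤ (‖a‖ + 1) * 1 := by simpa using hL₀ _ h1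
      _ ≤ (‖a‖ + 1) * v := mul_le_mul_of_nonneg_left hv1 (by positivity)
  · exact intervalIntegrable_const
  · refine Eventually.of_forall fun v hv => ?_
    rw [uIoc_of_le hs] at hv
    have hv0 : 0 < v := by linarith [hv.1]
    apply Tendsto.div_const
    apply hg.comp
    exact tendsto_id.atTop_div_const hv0

theorem pf_LDM (h : Pool.Agent.H29.EX.T_LDC) : T_LDM := by
  classical
  intro ψ χ t s hs
  have hs1 : (1 : ℝ) ≤ s := by exact_mod_cast hs
  set a : Nat.Primes → ℂ := fun p => chz ψ p * (starRingEnd ℂ) (chz χ p) *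
    ((p : ℕ) : ℂ) ^ (-(t * I) : ℂ) with ha
  have han : ∀ p, ‖a p‖ ≤ 1 := by
    intro p
    have hp0 : (0 : ℝ) < ((p : ℕ) : ℝ) := by exact_mod_cast p.2.pos
    simp only [ha]
    rw [norm_mul, norm_mul, RCLike.norm_conj]
    have h3 : ‖((p : ℕ) : ℂ) ^ (-(t * I) : ℂ)‖ = 1 := by
      have := Complex.norm_cpow_eq_rpow_re_of_pos hp0 (-(t * I) : ℂ)
      rw [show (((p : ℕ) : ℝ) : ℂ) = ((p : ℕ) : ℂ) by push_cast; rfl] at this
      rw [this]
      simp
    rw [h3, mul_one]
    calc ‖chz ψ p‖ * ‖chz χ p‖ ≤ 1 * 1 :=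
          mul_le_mul (norm_chz_le _ _) (norm_chz_le _ _) (norm_nonneg _) (by norm_num)
      _ = 1 := one_mul 1
  have h1 := h ψ χ t 1 le_rfl
  set b : ℂ := if ψ = χ ∧ t = 0 then 1 else 0 with hb
  set g : ℝ → ℂ := fun L => (∑' p : Nat.Primes, a p * Real.log p *
      ((((p : ℕ) : ℝ) ^ (-(1 + 1 / L) : ℝ) : ℝ) : ℂ)) / L with hg
  have hgt : Tendsto g atTop (𝓝 b) := by
    have e : (if ψ = χ ∧ t = 0 then (1 : ℂ) / ((1 : ℕ) : ℂ) else 0) = b := by
      rw [hb]; split_ifs <;> simp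
    rw [e] at h1
    refine h1.congr fun L => ?_
    simp only [hg, ha, Nat.cast_one]
  have hcont : ∀ L : ℝ, 0 < L → ContinuousOn (fun v => g (L / v)) (Icc 1 (s : ℝ)) := by
    intro L hL
    have e : ∀ v ∈ Icc (1 : ℝ) s, g (L / v) = (∑' p : Nat.Primes, a p * Real.log p *
      ((((p : ℕ) : ℝ) ^ (-(1 + v / L) : ℝ) : ℝ) : ℂ)) / L * v := by
      intro v hv
      have hv0 : 0 < v := by linarith [hv.1]
      simp only [hg]
      rw [show (1 : ℝ) / (L / v) = v / L by field_simp]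
      have hLc : (L : ℂ) ≠ 0 := by exact_mod_cast hL.ne'
      have hvc : (v : ℂ) ≠ 0 := by exact_mod_cast hv0.ne'
      push_cast
      field_simp
    refine ContinuousOn.congr ?_ e
    apply ContinuousOn.mul _ Complex.continuous_ofReal.continuousOn
    apply ContinuousOn.div_const
    apply continuousOn_tsum (u := fun p : Nat.Primes =>
      Real.log p * ((p : ℕ) : ℝ) ^ (-(1 + 1 / L) : ℝ))
    · intro p
      have hp0 : (0 : ℝ) < ((p : ℕ) : ℝ) := by exact_mod_cast p.2.pos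
      apply Continuous.continuousOn
      apply Continuous.mul continuous_const
      apply Complex.continuous_ofReal.comp
      exact Continuous.rpow continuous_const (by fun_prop) (fun _ => Or.inl hp0.ne')
    · exact summ_log (1 / L) (by positivity)
    · intro p v hv
      have hp : (1 : ℝ) < ((p : ℕ) : ℝ) := by exact_mod_cast p.2.one_lt
      have hp0 : (0 : ℝ) < ((p : ℕ) : ℝ) := by linarith
      have hl : 0 ≤ Real.log ((p : ℕ) : ℝ) := Real.log_nonneg hp.le
      rw [norm_mul, norm_mul, Complex.norm_real, Complex.norm_real, Real.norm_of_nonneg hl,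
        Real.norm_of_nonneg (by positivity)]
      apply mul_le_mul _ _ (by positivity) hl
      · calc ‖a p‖ * Real.log ((p : ℕ) : ℝ) ≤ 1 * Real.log ((p : ℕ) : ℝ) :=
            mul_le_mul_of_nonneg_right (han p) hl
          _ = Real.log ((p : ℕ) : ℝ) := one_mul _
      · apply Real.rpow_le_rpow_of_exponent_le hp.le
        have : 1 / L ≤ v / L := div_le_div_of_nonneg_right hv.1 hL.le
        linarith
  have h5 := (lim_int g b hgt s hs1 hcont).neg
  have e2 : -(b * (Real.log (s : ℝ) : ℂ)) =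
      if ψ = χ ∧ t = 0 then -((Real.log (s : ℝ) : ℝ) : ℂ) else 0 := by
    rw [hb]; split_ifs <;> simp
  rw [e2] at h5
  refine h5.congr' ?_
  filter_upwards [eventually_gt_atTop 0] with L hL
  have e3 := swap a han L hL s hs1
  simp only [ha] at e3
  rw [e3]
  congr 1
  apply intervalIntegral.integral_congr
  intro v hv
  rw [uIcc_of_le hs1] at hv
  have hv0 : 0 < v := by linarith [hv.1]
  simp only [hg, ha]
  rw [show (1 : ℝ) / (L / v) = v / L by field_simp]
  have hLc : (L : ℂ) ≠ 0 := by exact_mod_cast hL.ne'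
  have hvc : (v : ℂ) ≠ 0 := by exact_mod_cast hv0.ne'
  push_cast
  field_simp

end Pool.Agent.H96.RT
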