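import Pool.Agent.H29.RT.Targets

/-!
# (MND) the mean for combinations of characters
-/

set_option autoImplicit false

open Complex MeasureTheory Set Filter Topology

namespace Pool.Agent.H96.RT

open Pool.Agent.H29.RT Pool.Agent.H25.DP Pool.Agent.H25.DL Pool.Agent.H25.MZ

/-- the weight is summable -/
lemma summ_diff (s : ℕ) (hs : 1 ≤ s) (L : ℝ) (hL : 0 < L) :
    Summable fun p : Nat.Primes =>
      (((p : ℕ) : ℝ) ^ (-(1 + s / L) : ℝ) - ((p : ℕ) : ℝ) ^ (-(1 + 1 / L) : ℝ)) := by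
  have hs0 : (0 : ℝ) < s := by exact_mod_cast hs
  have h1 : ∀ x : ℝ, 0 < x → Summable fun p : Nat.Primes => ((p : ℕ) : ℝ) ^ (-(1 + x) : ℝ) := by
    intro x hx
    exact (Real.summable_nat_rpow.2 (by linarith : -(1 + x) < -1)).comp_injective
      (i := fun p : Nat.Primes => (p : ℕ)) Nat.Primes.coe_nat_injective
  exact (h1 _ (by positivity)).sub (h1 _ (by positivity))

lemma norm_pit (p : Nat.Primes) (t : ℝ) : ‖((p : ℕ) : ℂ) ^ (-(t * I) : ℂ)‖ = 1 := by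
  have hp0 : (0 : ℝ) < ((p : ℕ) : ℝ) := by exact_mod_cast p.2.pos
  have := Complex.norm_cpow_eq_rpow_re_of_pos hp0 (-(t * I) : ℂ)
  rw [show (((p : ℕ) : ℝ) : ℂ) = ((p : ℕ) : ℂ) by push_cast; rfl] at this
  rw [this]
  simp

/-- `p^{-it} conj (p^{-iu}) = p^{-i(t-u)}` -/
lemma pit_mul (p : Nat.Primes) (t u : ℝ) :
    ((p : ℕ) : ℂ) ^ (-(t * I) : ℂ) * (starRingEnd ℂ) (((p : ℕ) : ℂ) ^ (-(u * I) : ℂ)) =
      ((p : ℕ) : ℂ) ^ (-(((t - u : ℝ) : ℂ) * I) : ℂ) := by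
  have hp0 : (0 : ℝ) < ((p : ℕ) : ℝ) := by exact_mod_cast p.2.pos
  have hpc : ((p : ℕ) : ℂ) ≠ 0 := by exact_mod_cast p.2.ne_zero
  have h1 : (starRingEnd ℂ) (((p : ℕ) : ℂ) ^ (-(u * I) : ℂ)) =
      ((p : ℕ) : ℂ) ^ ((u * I) : ℂ) := by
    rw [Complex.cpow_def_of_ne_zero hpc, Complex.cpow_def_of_ne_zero hpc, ← Complex.exp_conj]
    congr 1
    have h2 : Complex.log ((p : ℕ) : ℂ) = ((Real.log ((p : ℕ) : ℝ) : ℝ) : ℂ) := by
      rw [Complex.ofReal_log hp0.le]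
      push_cast
      rfl
    rw [h2, map_mul, Complex.conj_ofReal]
    congr 1
    simp
  rw [h1, ← Complex.cpow_add _ _ hpc]
  congr 1
  push_cast
  ring

theorem pf_MND (h : T_LDM) : T_MND := by
  classical
  intro k χ t c m hm hinj s hs
  set a : Fin k → Nat.Primes → ℂ := fun i p => chz (χ i) p * ((p : ℕ) : ℂ) ^ (-(t i * I) : ℂ)
    with ha
  have hlim : ∀ i j : Fin k, Tendsto (fun L : ℝ => ∑' p : Nat.Primes,
      a i p * (starRingEnd ℂ) (a j p) *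
        ((((p : ℕ) : ℝ) ^ (-(1 + s / L) : ℝ) - ((p : ℕ) : ℝ) ^ (-(1 + 1 / L) : ℝ) : ℝ) : ℂ)) atTop
      (𝓝 (if i = j then -((Real.log s : ℝ) : ℂ) else 0)) := by
    intro i j
    have h1 := h (χ i) (χ j) (t i - t j) s hs
    have e : (if χ i = χ j ∧ t i - t j = 0 then -((Real.log s : ℝ) : ℂ) else 0) =
        if i = j then -((Real.log s : ℝ) : ℂ) else 0 := by
      by_cases hij : i = j
      · subst hij
        simp
      · rw [if_neg hij, if_neg]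
        rintro ⟨h2, h3⟩
        exact hij (hinj i j h2 (by linarith))
    rw [e] at h1
    refine h1.congr fun L => ?_
    apply tsum_congr
    intro p
    rw [← pit_mul p (t i) (t j)]
    simp only [ha, map_mul]
    ring
  have hnorm : ∀ i p, ‖a i p‖ ≤ 1 := by
    intro i p
    simp only [ha]
    rw [norm_mul, norm_pit, mul_one]
    exact norm_chz_le _ _
  have hsum : ∀ L : ℝ, 0 < L → ∀ i j : Fin k, Summable fun p : Nat.Primes =>
      a i p * (starRingEnd ℂ) (a j p) *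
        ((((p : ℕ) : ℝ) ^ (-(1 + s / L) : ℝ) - ((p : ℕ) : ℝ) ^ (-(1 + 1 / L) : ℝ) : ℝ) : ℂ) := by
    intro L hL i j
    refine Summable.of_norm_bounded (summ_diff s hs L hL).norm fun p => ?_
    rw [norm_mul, norm_mul, RCLike.norm_conj, Complex.norm_real]
    calc ‖a i p‖ * ‖a j p‖ * ‖((p : ℕ) : ℝ) ^ (-(1 + s / L) : ℝ) -
          ((p : ℕ) : ℝ) ^ (-(1 + 1 / L) : ℝ)‖
        ≤ 1 * 1 * ‖((p : ℕ) : ℝ) ^ (-(1 + s / L) : ℝ) -
          ((p : ℕ) : ℝ) ^ (-(1 + 1 / L) : ℝ)‖ :=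
          mul_le_mul_of_nonneg_right
            (mul_le_mul (hnorm i p) (hnorm j p) (norm_nonneg _) (by norm_num)) (norm_nonneg _)
      _ = _ := by ring
  -- the sum of the limits
  have h2 : Tendsto (fun L : ℝ => ∑ i, ∑ j, ((c i : ℂ) * (c j : ℂ) / (m : ℂ) ^ 2) *
      ∑' p : Nat.Primes, a i p * (starRingEnd ℂ) (a j p) *
        ((((p : ℕ) : ℝ) ^ (-(1 + s / L) : ℝ) - ((p : ℕ) : ℝ) ^ (-(1 + 1 / L) : ℝ) : ℝ) : ℂ)) atTop
      (𝓝 (∑ i, ∑ j, ((c i : ℂ) * (c j : ℂ) / (m : ℂ) ^ 2) *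
        (if i = j then -((Real.log s : ℝ) : ℂ) else 0))) :=
    tendsto_finsetSum _ fun i _ => tendsto_finsetSum _ fun j _ =>
      (hlim i j).const_mul _
  have e2 : (∑ i, ∑ j, ((c i : ℂ) * (c j : ℂ) / (m : ℂ) ^ 2) *
        (if i = j then -((Real.log s : ℝ) : ℂ) else 0)) =
      ((-((∑ i, (c i : ℝ) ^ 2) / (m : ℝ) ^ 2 * Real.log s) : ℝ) : ℂ) := by
    push_cast
    simp only [mul_ite, mul_zero, Finset.sum_ite_eq, Finset.mem_univ, if_true]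
    rw [Finset.sum_div, Finset.sum_mul, ← Finset.sum_neg_distrib]
    apply Finset.sum_congr rfl
    intro i _
    ring
  rw [e2] at h2
  have h3 := (Complex.continuous_re.tendsto _).comp h2
  rw [Complex.ofReal_re] at h3
  refine h3.congr' ?_
  filter_upwards [eventually_gt_atTop 0] with L hL
  simp only [Function.comp]
  -- exchange
  have e3 : (∑ i, ∑ j, ((c i : ℂ) * (c j : ℂ) / (m : ℂ) ^ 2) *
      ∑' p : Nat.Primes, a i p * (starRingEnd ℂ) (a j p) *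
        ((((p : ℕ) : ℝ) ^ (-(1 + s / L) : ℝ) - ((p : ℕ) : ℝ) ^ (-(1 + 1 / L) : ℝ) : ℝ) : ℂ)) =
      ∑' p : Nat.Primes, ∑ i, ∑ j, ((c i : ℂ) * (c j : ℂ) / (m : ℂ) ^ 2) *
        (a i p * (starRingEnd ℂ) (a j p) *
        ((((p : ℕ) : ℝ) ^ (-(1 + s / L) : ℝ) - ((p : ℕ) : ℝ) ^ (-(1 + 1 / L) : ℝ) : ℝ) : ℂ)) := by
    have hs1 : ∀ i j : Fin k, Summable fun p : Nat.Primes => ((c i : ℂ) * (c j : ℂ) / (m : ℂ) ^ 2) *
        (a i p * (starRingEnd ℂ) (a j p) *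
        ((((p : ℕ) : ℝ) ^ (-(1 + s / L) : ℝ) - ((p : ℕ) : ℝ) ^ (-(1 + 1 / L) : ℝ) : ℝ) : ℂ)) :=
      fun i j => (hsum L hL i j).mul_left _
    have hs2 : ∀ i : Fin k, Summable fun p : Nat.Primes =>
        ∑ j, ((c i : ℂ) * (c j : ℂ) / (m : ℂ) ^ 2) *
        (a i p * (starRingEnd ℂ) (a j p) *
        ((((p : ℕ) : ℝ) ^ (-(1 + s / L) : ℝ) - ((p : ℕ) : ℝ) ^ (-(1 + 1 / L) : ℝ) : ℝ) : ℂ)) :=
      fun i => summable_sum fun j _ => hs1 i j
    rw [Summable.tsum_finsetSum fun i _ => hs2 i]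
    apply Finset.sum_congr rfl
    intro i _
    rw [Summable.tsum_finsetSum fun j _ => hs1 i j]
    apply Finset.sum_congr rfl
    intro j _
    rw [tsum_mul_left]
  rw [e3]
  have e4 : ∀ p : Nat.Primes, (∑ i, ∑ j, ((c i : ℂ) * (c j : ℂ) / (m : ℂ) ^ 2) *
        (a i p * (starRingEnd ℂ) (a j p) *
        ((((p : ℕ) : ℝ) ^ (-(1 + s / L) : ℝ) - ((p : ℕ) : ℝ) ^ (-(1 + 1 / L) : ℝ) : ℝ) : ℂ))) =
      ((‖(∑ i, (c i : ℂ) * chz (χ i) p * ((p : ℕ) : ℂ) ^ (-(t i * I) : ℂ)) / m‖ ^ 2 *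
        (((p : ℕ) : ℝ) ^ (-(1 + s / L) : ℝ) - ((p : ℕ) : ℝ) ^ (-(1 + 1 / L) : ℝ)) : ℝ) : ℂ) := by
    intro p
    set w : ℝ := ((p : ℕ) : ℝ) ^ (-(1 + s / L) : ℝ) - ((p : ℕ) : ℝ) ^ (-(1 + 1 / L) : ℝ) with hw
    have e5 : (∑ i, (c i : ℂ) * chz (χ i) p * ((p : ℕ) : ℂ) ^ (-(t i * I) : ℂ)) =
        ∑ i, (c i : ℂ) * a i p := by
      apply Finset.sum_congr rfl
      intro i _
      simp only [ha]
      ring
    rw [e5, Complex.ofReal_mul, ← Complex.normSq_eq_norm_sq, ← Complex.mul_conj, map_div₀, map_sum]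
    simp only [map_mul, map_natCast, map_intCast]
    rw [div_mul_div_comm, Finset.sum_mul_sum, Finset.sum_div, Finset.sum_mul]
    apply Finset.sum_congr rfl
    intro i _
    rw [Finset.sum_div, Finset.sum_mul]
    apply Finset.sum_congr rfl
    intro j _
    ring
  rw [tsum_congr e4, ← Complex.ofReal_tsum, Complex.ofReal_re]

end Pool.Agent.H96.RT
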